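import Pool.Agent.H48.CE.Basic

/-!
# MP_d32443_co: rows SEP and DEN
-/

set_option autoImplicit false

namespace Pool.Agent.H48.CE

theorem crossing {V : Type} {G : SimpleGraph V} {A B : Finset V}
    (hno : ∀ x ∈ A, x ∉ B → ∀ y ∈ B, y ∉ A → ¬ G.Adj x y) :
    ∀ {a b : V} (w : G.Walk a b), (∀ x ∈ w.support, x ∈ A ∨ x ∈ B) → a ∉ B → b ∉ A →
      ∃ z ∈ w.support, z ∈ A ∧ z ∈ B := by
  intro a b w
  induction w with
  | @nil a =>
    intro h ha hb
    rcases h a (by simp) with h1 | h1
    · exact absurd h1 hb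
    · exact absurd h1 ha
  | @cons a a' b h p ih =>
    intro hs ha hb
    have haA : a ∈ A := (hs a (by simp)).resolve_right ha
    have hs' : ∀ x ∈ p.support, x ∈ A ∨ x ∈ B := by
      intro x hx
      exact hs x (by rw [SimpleGraph.Walk.support_cons]; exact List.mem_cons_of_mem _ hx)
    by_cases hB : a' ∈ B
    · by_cases hA : a' ∈ A
      · exact ⟨a', by rw [SimpleGraph.Walk.support_cons]; exact List.mem_cons_of_mem _ p.start_mem_support,
          hA, hB⟩
      · exact absurd h (hno a haA ha a' hB hA)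
    · obtain ⟨z, hz, hzAB⟩ := ih hs' hB hb
      exact ⟨z, by rw [SimpleGraph.Walk.support_cons]; exact List.mem_cons_of_mem _ hz, hzAB⟩

theorem mem_tail_support {V : Type} {G : SimpleGraph V} {a b z : V} (w : G.Walk a b)
    (hz : z ∈ w.support) (hza : z ≠ a) : z ∈ w.support.tail := by
  rw [← SimpleGraph.Walk.cons_tail_support w, List.mem_cons] at hz
  exact hz.resolve_left hza

theorem pf_SEP : T_SEP := by
  intro V G A B hone hno v c hc hsup
  classical
  by_contra h
  push Not at h
  obtain ⟨⟨b, hb, hbA⟩, ⟨a, ha, haB⟩⟩ := h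
  have haA : a ∈ A := (hsup a ha).resolve_right haB
  have hbB : b ∈ B := (hsup b hb).resolve_left hbA
  have hc1 : (c.rotate a ha).IsCycle := hc.rotate ha
  have hsup1 : ∀ x ∈ (c.rotate a ha).support, x ∈ A ∨ x ∈ B := by
    intro x hx
    exact hsup x ((SimpleGraph.Walk.mem_support_rotate_iff c a ha).mp hx)
  have hb1 : b ∈ (c.rotate a ha).support := (SimpleGraph.Walk.mem_support_rotate_iff c a ha).mpr hb
  generalize c.rotate a ha = c1 at hc1 hsup1 hb1
  have hspec := c1.take_spec hb1
  obtain ⟨z1, hz1, hz1A, hz1B⟩ := crossing hno (c1.takeUntil b hb1)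
    (fun x hx => hsup1 x (c1.support_takeUntil_subset_support hb1 hx)) haB hbA
  obtain ⟨z2, hz2, hz2B, hz2A⟩ := crossing (A := B) (B := A)
    (fun x hx hx' y hy hy' hxy => hno y hy hy' x hx hx' hxy.symm) (c1.dropUntil b hb1)
    (fun x hx => (hsup1 x (c1.support_dropUntil_subset_support hb1 hx)).symm) hbA haB
  have hzz : z1 = z2 := hone z1 hz1A hz1B z2 hz2A hz2B
  have h1 : z1 ∈ (c1.takeUntil b hb1).support.tail :=
    mem_tail_support _ hz1 (fun h => haB (h ▸ hz1B))
  have h2 : z2 ∈ (c1.dropUntil b hb1).support.tail :=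
    mem_tail_support _ hz2 (fun h => hbA (h ▸ hz2A))
  have h3 := hc1.support_nodup
  rw [← hspec, SimpleGraph.Walk.tail_support_append, List.nodup_append] at h3
  exact h3.2.2 z1 h1 z2 h2 hzz

theorem pf_DEN : T_DEN := by
  intro n G
  classical
  have h1 : D G Finset.univ = ∑ v, G.degree v := by
    unfold D
    refine Finset.sum_congr rfl (fun v _ => ?_)
    rw [← SimpleGraph.card_neighborFinset_eq_degree]
    congr 1
    ext w
    simp [mem_nb]
  rw [h1, SimpleGraph.sum_degrees_eq_twice_card_edges]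
  congr 1
  rw [← SimpleGraph.coe_edgeFinset, Set.ncard_coe_finset]

end Pool.Agent.H48.CE
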