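import Pool.Agent.H48.CE.Basic

/-!
# MP_d32443_co: rows CYC and FAN (cycles from lists)
-/

set_option autoImplicit false

namespace Pool.Agent.H48.CE

theorem exists_walk_of_chain {V : Type} (G : SimpleGraph V) : ∀ (m : List V) (x z : V),
    (x :: (m ++ [z])).IsChain G.Adj → ∃ w : G.Walk x z, w.support = x :: (m ++ [z]) := by
  intro m
  induction m with
  | nil =>
    intro x z h
    have h1 : G.Adj x z := by simpa using h
    exact ⟨SimpleGraph.Walk.cons h1 SimpleGraph.Walk.nil, by simp⟩
  | cons y m ih =>
    intro x z h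
    rw [List.cons_append, List.isChain_cons_cons] at h
    obtain ⟨w, hw⟩ := ih y z h.2
    exact ⟨SimpleGraph.Walk.cons h.1 w, by rw [SimpleGraph.Walk.support_cons, hw]; simp⟩

theorem pf_CYC : T_CYC := by
  intro V G x l y hl hnd hch hadj
  obtain ⟨w, hw⟩ := exists_walk_of_chain G l x y hch
  have hpath : w.IsPath := by
    rw [SimpleGraph.Walk.isPath_def, hw]; exact hnd
  refine ⟨y, SimpleGraph.Walk.cons hadj w, ?_, ?_⟩
  · rw [SimpleGraph.Walk.cons_isCycle_iff]
    refine ⟨hpath, fun he => ?_⟩
    cases w with
    | nil => simp at he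
    | @cons _ a _ h p =>
      rw [SimpleGraph.Walk.edges_cons, List.mem_cons] at he
      rw [SimpleGraph.Walk.cons_isPath_iff] at hpath
      rcases he with he | he
      · rw [Sym2.eq_iff] at he
        rcases he with ⟨_, h2⟩ | ⟨h1, _⟩
        · exact h.ne h2
        · subst h1
          have h3 : p = SimpleGraph.Walk.nil :=
            SimpleGraph.Walk.eq_nil_iff_nil.mpr (SimpleGraph.Walk.isPath_iff_nil.mp hpath.1)
          rw [h3] at hw
          simp at hw
          cases l with
          | nil => exact hl rfl
          | cons c l => simp at hw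
      · exact hpath.2 (SimpleGraph.Walk.snd_mem_support_of_mem_edges p he)
  · have h1 := SimpleGraph.Walk.length_support w
    rw [hw] at h1
    simp at h1 ⊢
    omega

theorem pf_FAN (hCYC : T_CYC) : T_FAN := by
  intro V G S v l k hl hadj hk
  refine ⟨2, fun i hi => ?_⟩
  have hv : v ∉ l := fun h => (hadj v h).ne rfl
  obtain ⟨m, y, hm⟩ : ∃ m y, l.take (2 * i + 3) = m ++ [y] := by
    rcases List.eq_nil_or_concat (l.take (2 * i + 3)) with h | ⟨L, b, h⟩
    · have h1 := congrArg List.length h
      rw [List.length_take, List.length_nil] at h1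
      omega
    · exact ⟨L, b, by rw [h, List.concat_eq_append]⟩
  have hlen : m.length = 2 * i + 2 := by
    have h1 := congrArg List.length hm
    simp at h1
    omega
  have hsub : ∀ x ∈ m ++ [y], x ∈ l := fun x hx => by
    rw [← hm] at hx
    exact List.mem_of_mem_take hx
  have hP : Pth G S (m ++ [y]) := by
    have h1 : Pth G S ((m ++ [y]) ++ l.drop (2 * i + 3)) := by
      rw [← hm, List.take_append_drop]; exact hl
    exact pth_left h1 (by simp)
  obtain ⟨z, c, hc, hclen⟩ := hCYC G v m y (by
      intro h
      rw [h] at hlen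
      simp at hlen) (by
      rw [List.nodup_cons]
      exact ⟨fun h => hv (hsub v h), hP.2.1⟩) (by
      cases m with
      | nil => simp at hlen
      | cons c m =>
        rw [List.cons_append, List.isChain_cons_cons]
        exact ⟨hadj c (hsub c (by simp)), hP.2.2.1⟩)
    (hadj y (hsub y (by simp))).symm
  exact ⟨z, c, hc, by omega⟩

end Pool.Agent.H48.CE
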