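import Pool.Agent.H48.CE.Basic

/-!
# MP_d32443_co: row DEG (degrees in blocks)
-/

set_option autoImplicit false

namespace Pool.Agent.H48.CE

theorem pf_DEG (hAVG : T_AVG) (hLNG : T_LNG) (hLPA : T_LPA) (hFAN : T_FAN) (hTWO : T_TWO) :
    T_DEG := by
  intro V G S v t k hTC hv ht hI hrun
  classical
  by_contra hlt
  push Not at hlt
  set N := nb G S v with hN
  have hNadj : ∀ x ∈ N, G.Adj v x := fun x hx => (mem_nb.mp hx).2
  have hNS : N ⊆ S := fun x hx => (mem_nb.mp hx).1
  obtain ⟨C, a, hCN, hCne, hCc, hCd, hCI, hCa⟩ := hAVG G N t k hI (by omega)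
  have ha : 1 ≤ a := by
    obtain ⟨x, hx⟩ := hCne
    have h1 := hCI {x} (by simpa using hx) (by simp)
    simpa using h1
  have hCadj : ∀ x ∈ C, G.Adj v x := fun x hx => hNadj x (hCN hx)
  rcases Nat.lt_or_ge a 2 with ha2 | ha2
  · -- `C` is a clique
    obtain rfl : a = 1 := by omega
    rcases Nat.lt_or_ge C.card (2 * k + 1) with hC | hC
    · -- second component
      set N1 := N.filter (fun x => x ∉ C) with hN1
      have hN1N : N1 ⊆ N := Finset.filter_subset _ _
      obtain ⟨z, hz⟩ := hCne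
      have hzN1 : z ∉ N1 := by
        rw [hN1, Finset.mem_filter]
        exact fun h => h.2 hz
      have hI1 : Ind G N1 (t - 1) := by
        refine ind_pred hI hN1N (hCN hz) hzN1 ?_
        intro y hy
        rw [hN1, Finset.mem_filter] at hy
        exact hCd z hz y hy.1 hy.2
      have hcard : N1.card + C.card = N.card := by
        have h1 : N1 = N \ C := by ext x; simp [hN1]
        rw [h1]
        exact Finset.card_sdiff_add_card_eq_card hCN
      obtain ⟨x, hx⟩ : ∃ x, C.card = k + x := ⟨C.card - k, by omega⟩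
      have hx1 : 1 ≤ x := by omega
      have hxk : x ≤ k := by omega
      obtain ⟨s, rfl⟩ : ∃ s, t = s + 2 := ⟨t - 2, by omega⟩
      have hbig : (s + 2 - 1) * (k - x) + 1 ≤ N1.card := by
        obtain ⟨y, rfl⟩ : ∃ y, k = x + y := ⟨k - x, by omega⟩
        have h1 : s + 2 - 1 = s + 1 := by omega
        have h2 : x + y - x = y := by omega
        rw [h1, h2]
        have h3 : (s + 2) * (x + y) = (s + 1) * y + (s + 1) * x + (x + y) := by ring
        have h4 : x ≤ (s + 1) * x := by nlinarith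
        omega
      obtain ⟨C1, b, hC1N, hC1ne, hC1c, hC1d, hC1I, hC1b⟩ := hAVG G N1 (s + 2 - 1) (k - x) hI1 hbig
      have hC1C : ∀ y ∈ C, y ∉ C1 := by
        intro y hy hy1
        have h1 := hC1N hy1
        rw [hN1, Finset.mem_filter] at h1
        exact h1.2 hy
      refine hrun (hTWO G S C C1 v k (k + x) (k - x + 1) hTC hv (hCN.trans hNS)
        ((hC1N.trans hN1N).trans hNS) ⟨z, hz⟩ hC1ne hCadj
        (fun y hy => hNadj y (hN1N (hC1N hy))) hC1C ?_ ?_ (by omega) (by omega) (by omega))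
      · intro u hu
        obtain ⟨l, hl, hlc⟩ := hLNG G C 1 u hCc hCI hu
        exact ⟨l, hl, by omega⟩
      · intro u hu
        obtain ⟨l, hl, hlc⟩ := hLNG G C1 b u hC1c hC1I hu
        refine ⟨l, hl, ?_⟩
        by_contra h
        have h1 : b * (l.length + 1) ≤ b * (k - x) := Nat.mul_le_mul_left _ (by omega)
        omega
    · obtain ⟨l, hl, hlc⟩ := hLPA G C 2 hCc (ind_le hCI (by omega)) le_rfl hCne
      exact hrun (hFAN G C v l k hl (fun y hy => hCadj y (hl.2.2.2 y hy)) (by omega))
  · obtain ⟨l, hl, hlc⟩ := hLPA G C a hCc hCI ha2 hCne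
    refine hrun (hFAN G C v l k hl (fun y hy => hCadj y (hl.2.2.2 y hy)) ?_)
    by_contra h
    have h1 : a * l.length ≤ a * (2 * k) := Nat.mul_le_mul_left _ (by omega)
    have h2 : a * (2 * k) = 2 * (a * k) := by ring
    omega

end Pool.Agent.H48.CE
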