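import Pool.Agent.H48.CE.Basic

/-!
# MP_d32443_co: row LPA (long paths in a connected set)
-/

set_option autoImplicit false

namespace Pool.Agent.H48.CE

theorem pf_LPA (hAVG : T_AVG) (hLNG : T_LNG) : T_LPA := by
  intro V G S a hc hI ha hne
  classical
  obtain ⟨u, hu⟩ := hne
  obtain ⟨l, hl, hmax⟩ := exists_max_len (fun l => Pth G S l) S.card
    ⟨[u], by simp [Pth, hu]⟩ (fun l h => pth_length_le h)
  refine ⟨l, hl, ?_⟩
  have hcard := card_compl_path hl
  set R := S.filter (fun x => x ∉ l) with hR
  have hRS : R ⊆ S := Finset.filter_subset _ _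
  by_contra hlt
  push Not at hlt
  have hmem : ∀ v ∈ S, v ∉ R → v ∈ l := by
    intro v hv hvR
    by_contra h
    exact hvR (by rw [hR, Finset.mem_filter]; exact ⟨hv, h⟩)
  have hnR : ∀ v ∈ l, v ∉ R := by
    intro v hv hvR
    rw [hR, Finset.mem_filter] at hvR
    exact hvR.2 hv
  -- the set `R` is nonempty
  have hRpos : 1 ≤ R.card := by
    by_contra h
    have h0 : R.card = 0 := by omega
    have h1 : S.card = l.length := by omega
    have h2 : 2 * l.length ≤ a * l.length := Nat.mul_le_mul_right _ ha
    omega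
  obtain ⟨x0, l1, hx⟩ : ∃ x0 l1, l = x0 :: l1 := by
    cases l with
    | nil => exact absurd rfl hl.1
    | cons x0 l1 => exact ⟨x0, l1, rfl⟩
  obtain ⟨pre, z, hQ⟩ : ∃ pre z, l = pre ++ [z] := by
    rcases List.eq_nil_or_concat l with h | ⟨L, b, h⟩
    · exact absurd h hl.1
    · exact ⟨L, b, by rw [h, List.concat_eq_append]⟩
  have hz : ∀ y ∈ R, ¬ G.Adj z y := by
    intro y hy hzy
    have hyS := hRS hy
    have h2 := pth_append (l := pre) (m := []) (x := z) (y := y) (hQ ▸ hl)
        ⟨by simp, by simp, by simp, by simpa using hyS⟩ hzy (by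
          intro w hw hw2
          simp at hw2
          subst hw2
          exact hnR w (hQ ▸ hw) hy)
    rw [← hQ] at h2
    have h3 := hmax _ h2
    simp at h3
  have hx0 : ∀ y ∈ R, ¬ G.Adj x0 y := by
    intro y hy hxy
    have hyS := hRS hy
    have h2 := pth_append (G := G) (S := S) (l := []) (m := l1) (x := y) (y := x0)
        ⟨by simp, by simp, by simp, by simpa using hyS⟩ (hx ▸ hl) hxy.symm (by
          intro w hw hw2
          simp at hw
          subst hw
          exact hnR w (hx ▸ hw2) hy)
    rw [← hx] at h2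
    have h3 := hmax _ h2
    simp at h3
  have hx0S : x0 ∈ S := hl.2.2.2 x0 (by rw [hx]; simp)
  have hzS : z ∈ S := hl.2.2.2 z (by rw [hQ]; simp)
  have hx0R : x0 ∉ R := hnR x0 (by rw [hx]; simp)
  have hzR : z ∉ R := hnR z (by rw [hQ]; simp)
  -- the ends are different and not adjacent
  have hends : x0 ≠ z ∧ ¬ G.Adj x0 z := by
    obtain ⟨w, hw, y, hy, hyl, hwy⟩ := hc l.toFinset
      (fun v hv => hl.2.2.2 v (List.mem_toFinset.mp hv))
      ⟨x0, by rw [List.mem_toFinset, hx]; simp⟩
      (by
        intro h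
        have h1 : l.toFinset.card = l.length := List.toFinset_card_of_nodup hl.2.1
        rw [h] at h1
        omega)
    rw [List.mem_toFinset] at hw hyl
    have hyR : y ∈ R := by rw [hR, Finset.mem_filter]; exact ⟨hy, hyl⟩
    obtain ⟨p1, p2, hp⟩ := List.append_of_mem hw
    have hwx : w ≠ x0 := fun h => hx0 y hyR (h ▸ hwy)
    have hwz : w ≠ z := fun h => hz y hyR (h ▸ hwy)
    obtain ⟨p1', hp1⟩ : ∃ p1', p1 = x0 :: p1' := by
      cases p1 with
      | nil =>
        rw [hx] at hp
        simp at hp
        exact absurd hp.1.symm hwx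
      | cons c p1 =>
        rw [hx] at hp
        simp at hp
        exact ⟨p1, by rw [hp.1]⟩
    obtain ⟨p2', hp2⟩ : ∃ p2', p2 = p2' ++ [z] := by
      rcases List.eq_nil_or_concat p2 with h | ⟨L, b, h⟩
      · rw [h, hQ] at hp
        have h3 : z = w := by
          have h4 := congrArg List.getLast? hp
          simpa using h4
        exact absurd h3.symm hwz
      · refine ⟨L, ?_⟩
        rw [h, List.concat_eq_append]
        rw [h, List.concat_eq_append, hQ] at hp
        have h5 : pre ++ [z] = (p1 ++ w :: L) ++ [b] := by rw [hp]; simp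
        have h6 : [z] = [b] := List.append_inj_right' h5 rfl
        have h3 : z = b := by simpa using h6
        rw [h3]
    have hne' : x0 ≠ z := by
      intro h
      have h1 := hl.2.1
      rw [hp, hp1, hp2, h] at h1
      simp at h1
    refine ⟨hne', fun hadj => ?_⟩
    have hA : Pth G S (w :: p2') := by
      have h1 : Pth G S (p1 ++ ((w :: p2') ++ [z])) := by
        have h2 : p1 ++ ((w :: p2') ++ [z]) = l := by rw [hp, hp2]; simp
        rw [h2]; exact hl
      exact pth_left (pth_right h1 (by simp)) (by simp)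
    have hB : Pth G S ((w :: p2') ++ [z]) := by
      have h1 : Pth G S (p1 ++ ((w :: p2') ++ [z])) := by
        have h2 : p1 ++ ((w :: p2') ++ [z]) = l := by rw [hp, hp2]; simp
        rw [h2]; exact hl
      exact pth_right h1 (by simp)
    have hC : Pth G S (x0 :: p1') := by
      have h1 : Pth G S (p1 ++ (w :: p2)) := by rw [← hp]; exact hl
      rw [← hp1]
      exact pth_left h1 (by rw [hp1]; simp)
    have hD : Pth G S ((w :: p2') ++ [z] ++ (x0 :: p1')) := by
      refine pth_append hB hC hadj.symm ?_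
      intro v hv hv2
      have h1 := hl.2.1
      rw [hp, List.nodup_append] at h1
      refine h1.2.2 v (by rw [hp1]; exact hv2) v ?_ rfl
      rw [hp2]; simpa using hv
    have hE : Pth G S ([] ++ [y] ++ ((w :: p2') ++ [z] ++ (x0 :: p1'))) := by
      have h1 : (w :: p2') ++ [z] ++ (x0 :: p1') = w :: (p2' ++ [z] ++ (x0 :: p1')) := by simp
      rw [h1] at hD ⊢
      refine pth_append ⟨by simp, by simp, by simp, by simpa using hy⟩ hD hwy.symm ?_
      intro v hv hv2
      simp only [List.nil_append, List.mem_singleton] at hv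
      subst hv
      apply hyl
      rw [hp, hp1, hp2]
      simp at hv2 ⊢
      tauto
    have h6 := hmax _ hE
    have h7 : l.length = (x0 :: p1' ++ w :: (p2' ++ [z])).length := by rw [hp, hp1, hp2]
    simp at h6 h7
    omega
  have hI1 : Ind G (insert z R) (a - 1) := by
    refine ind_pred hI ?_ hx0S ?_ ?_
    · intro v hv
      rw [Finset.mem_insert] at hv
      rcases hv with rfl | hv
      · exact hzS
      · exact hRS hv
    · rw [Finset.mem_insert]
      rintro (h | h)
      · exact hends.1 h
      · exact hx0R h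
    · intro y hy
      rw [Finset.mem_insert] at hy
      rcases hy with rfl | hy
      · exact hends.2
      · exact hx0 y hy
  have hI2 : Ind G R (a - 2) := by
    have h1 := ind_pred hI1 (Finset.subset_insert z R) (Finset.mem_insert_self z R) hzR hz
    exact h1
  have hbig : (a - 2) * ((l.length - 1) / 2) + 1 ≤ R.card := by
    obtain ⟨b, rfl⟩ : ∃ b, a = b + 2 := ⟨a - 2, by omega⟩
    have h1 : b + 2 - 2 = b := by omega
    rw [h1]
    have h2 : 2 * ((l.length - 1) / 2) ≤ l.length := by omega
    have h3 : b * (2 * ((l.length - 1) / 2)) ≤ b * l.length := Nat.mul_le_mul_left _ h2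
    have h4 : b * (2 * ((l.length - 1) / 2)) = 2 * (b * ((l.length - 1) / 2)) := by ring
    have h5 : (b + 2) * l.length = b * l.length + 2 * l.length := by ring
    omega
  obtain ⟨C, b, hCR, hCne, hCc, hCd, hCI, hCb⟩ := hAVG G R (a - 2) ((l.length - 1) / 2) hI2 hbig
  have hCS : C ⊆ S := hCR.trans hRS
  have hCne' : C ≠ S := fun h => hx0R (hCR (h ▸ hx0S))
  obtain ⟨y, hy, w, hw, hwC, hyw⟩ := hc C hCS hCne hCne'
  have hwR : w ∉ R := fun h => hCd y hy w h hwC hyw
  have hwl : w ∈ l := hmem w hw hwR
  obtain ⟨m, hm, hmc⟩ := hLNG G C b y hCc hCI hy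
  have hlong : (l.length - 1) / 2 < m.length + 1 := by
    by_contra h
    push Not at h
    have h1 : b * (m.length + 1) ≤ b * ((l.length - 1) / 2) := Nat.mul_le_mul_left _ h
    omega
  obtain ⟨p1, p2, hp⟩ := List.append_of_mem hwl
  have hpl : Pth G S (p1 ++ [w]) := by
    have h1 : Pth G S ((p1 ++ [w]) ++ p2) := by
      have h2 : (p1 ++ [w]) ++ p2 = l := by rw [hp]; simp
      rw [h2]; exact hl
    exact pth_left h1 (by simp)
  have hpr : Pth G S (w :: p2) := by
    have h1 : Pth G S (p1 ++ (w :: p2)) := by rw [← hp]; exact hl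
    exact pth_right h1 (by simp)
  have hdis : ∀ v ∈ y :: m, v ∉ l := fun v hv hvl => hnR v hvl (hCR (hm.2.2.2 v hv))
  have hF1 : Pth G S (p1 ++ [w] ++ (y :: m)) := by
    refine pth_append hpl (pth_mono hm hCS) hyw.symm ?_
    intro v hv hv2
    apply hdis v hv2
    rw [hp]
    simp at hv ⊢
    tauto
  have hrev : Pth G S (m.reverse ++ [y]) := by
    have h1 := pth_reverse (pth_mono hm hCS)
    simpa using h1
  have hF2 : Pth G S (m.reverse ++ [y] ++ (w :: p2)) := by
    refine pth_append hrev hpr hyw ?_
    intro v hv hv2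
    refine hdis v (by simp at hv ⊢; tauto) ?_
    rw [hp]
    simp at hv2 ⊢
    tauto
  have h1 := hmax _ hF1
  have h2 := hmax _ hF2
  have h3 : l.length = p1.length + 1 + p2.length := by rw [hp]; simp; omega
  simp at h1 h2
  omega

end Pool.Agent.H48.CE
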