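import Pool.Agent.H48.CE.Basic

/-!
# MP_d32443_co: row SPA (a path that avoids a vertex)
-/

set_option autoImplicit false

namespace Pool.Agent.H48.CE

/-- The graph on `S` without `v`. -/
def sub {V : Type} (G : SimpleGraph V) (S : Finset V) (v : V) : SimpleGraph V where
  Adj x y := G.Adj x y ∧ x ∈ S ∧ y ∈ S ∧ x ≠ v ∧ y ≠ v
  symm := ⟨fun _ _ h => ⟨h.1.symm, h.2.2.1, h.2.1, h.2.2.2.2, h.2.2.2.1⟩⟩
  loopless := ⟨fun _ h => h.1.ne rfl⟩

theorem sub_support {V : Type} {G : SimpleGraph V} {S : Finset V} {v : V} :
    ∀ {a c : V} (w : (sub G S v).Walk a c), a ∈ S → a ≠ v → ∀ x ∈ w.support, x ∈ S ∧ x ≠ v := by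
  intro a c w
  induction w with
  | nil =>
    intro ha hav x hx
    simp at hx
    subst hx
    exact ⟨ha, hav⟩
  | @cons a b c h p ih =>
    intro ha hav x hx
    rw [SimpleGraph.Walk.support_cons, List.mem_cons] at hx
    rcases hx with rfl | hx
    · exact ⟨ha, hav⟩
    · exact ih h.2.2.1 h.2.2.2.2 x hx

theorem pf_SPA : T_SPA := by
  intro V G S A C v hTC hvS hAS hCS hAne hCne hvA hvC hAC
  classical
  by_cases hex : ∃ n, ∃ (a c : V) (w : (sub G S v).Walk a c), a ∈ A ∧ c ∈ C ∧ w.length = n
  · -- a shortest walk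
    obtain ⟨a, c, w, ha, hc, hw⟩ := Nat.find_spec hex
    set n := Nat.find hex with hn
    have hmin' : ∀ (a' c' : V) (w' : (sub G S v).Walk a' c'), a' ∈ A → c' ∈ C → n ≤ w'.length := by
      intro a' c' w' ha' hc'
      by_contra h
      exact Nat.find_min hex (m := w'.length) (by omega) ⟨a', c', w', ha', hc', rfl⟩
    have hb1 : w.bypass.IsPath := SimpleGraph.Walk.bypass_isPath w
    have hb2 : w.bypass.length ≤ n := hw ▸ SimpleGraph.Walk.length_bypass_le_length w
    obtain ⟨p, hp, hpn⟩ : ∃ p : (sub G S v).Walk a c, p.IsPath ∧ p.length ≤ n := ⟨_, hb1, hb2⟩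
    have hsup := sub_support p (hAS ha) (fun h => hvA (h ▸ ha))
    have hA1 : ∀ x ∈ p.support, x ∈ A → x = a := by
      intro x hx hxA
      by_contra hne
      have h1 := hmin' x c (p.dropUntil x hx) hxA hc
      have h2 : (p.takeUntil x hx).length + (p.dropUntil x hx).length = p.length := by
        have h3 := congrArg SimpleGraph.Walk.length (p.take_spec hx)
        rwa [SimpleGraph.Walk.length_append] at h3
      have h4 : (p.takeUntil x hx).length ≠ 0 := by
        intro h0
        exact hne (SimpleGraph.Walk.eq_of_length_eq_zero h0).symm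
      omega
    have hC1 : ∀ x ∈ p.support, x ∈ C → x = c := by
      intro x hx hxC
      by_contra hne
      have h1 := hmin' a x (p.takeUntil x hx) ha hxC
      have h2 : (p.takeUntil x hx).length + (p.dropUntil x hx).length = p.length := by
        have h3 := congrArg SimpleGraph.Walk.length (p.take_spec hx)
        rwa [SimpleGraph.Walk.length_append] at h3
      have h4 : (p.dropUntil x hx).length ≠ 0 := by
        intro h0
        exact hne (SimpleGraph.Walk.eq_of_length_eq_zero h0)
      omega
    have hac : a ≠ c := fun h => hAC a ha (h ▸ hc)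
    obtain ⟨q, hq⟩ : ∃ q, p.support = a :: (q ++ [c]) := by
      cases p with
      | nil => exact absurd rfl hac
      | @cons _ b _ h p' =>
        rcases List.eq_nil_or_concat p'.support with h1 | ⟨L, z, h1⟩
        · exact absurd h1 (SimpleGraph.Walk.support_ne_nil p')
        · refine ⟨L, ?_⟩
          rw [SimpleGraph.Walk.support_cons, h1, List.concat_eq_append]
          have h2 := SimpleGraph.Walk.getLast_support p'
          simp only [h1, List.concat_eq_append, List.getLast_append_singleton] at h2
          rw [h2]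
    have hnd : (a :: (q ++ [c])).Nodup := by
      rw [← hq]; exact hp.support_nodup
    refine ⟨a, c, q, ha, hc, ?_, hnd, ?_⟩
    · intro x hx
      have hx1 : x ∈ p.support := by rw [hq]; simp [hx]
      have h1 := hsup x hx1
      rw [List.nodup_cons, List.nodup_append] at hnd
      refine ⟨h1.1, h1.2, fun hxA => ?_, fun hxC => ?_⟩
      · have h2 := hA1 x hx1 hxA
        exact hnd.1 (by rw [← h2]; simp [hx])
      · have h2 := hC1 x hx1 hxC
        exact hnd.2.2.2 x hx c (by simp) h2
    · rw [← hq]
      exact (SimpleGraph.Walk.isChain_adj_support p).imp (fun x y h => h.1)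
  · -- a separation
    exfalso
    push Not at hex
    set R := S.filter (fun x => x ≠ v ∧ ∃ a ∈ A, (sub G S v).Reachable a x) with hR
    have hmR : ∀ x, x ∈ R ↔ x ∈ S ∧ x ≠ v ∧ ∃ a ∈ A, (sub G S v).Reachable a x := by
      intro x; rw [hR, Finset.mem_filter]
    have h1 := hTC (insert v R) (S.filter (fun x => x ∉ R)) (by
        intro x hx
        rw [Finset.mem_insert] at hx
        rcases hx with rfl | hx
        · exact hvS
        · exact ((hmR x).mp hx).1) (Finset.filter_subset _ _) (by
        intro x hx
        by_cases hxR : x ∈ R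
        · exact Or.inl (Finset.mem_insert_of_mem hxR)
        · exact Or.inr (Finset.mem_filter.mpr ⟨hx, hxR⟩)) (by
        intro x hx hx2 y hy hy2
        rw [Finset.mem_insert] at hx hy
        rw [Finset.mem_filter] at hx2 hy2
        rcases hx with rfl | hx
        · rcases hy with rfl | hy
          · rfl
          · exact absurd hy hy2.2
        · exact absurd hx hx2.2) (by
        intro x hx hx2 y hy hy2 hxy
        rw [Finset.mem_insert] at hx hy2
        rw [Finset.mem_filter] at hx2 hy
        push Not at hy2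
        have hxR : x ∈ R := by
          by_contra hxR
          rcases hx with rfl | hx
          · exact hx2 ⟨hvS, hxR⟩
          · exact hxR hx
        obtain ⟨hxS, hxv, a, ha, har⟩ := (hmR x).mp hxR
        refine hy2.2 ((hmR y).mpr ⟨hy.1, hy2.1, a, ha, har.trans ?_⟩)
        exact SimpleGraph.Adj.reachable (show (sub G S v).Adj x y from ⟨hxy, hxS, hy.1, hxv, hy2.1⟩))
    rcases h1 with h1 | h1
    · obtain ⟨c, hc⟩ := hCne
      have h2 : c ∈ insert v R := by rw [h1]; exact hCS hc
      rw [Finset.mem_insert] at h2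
      rcases h2 with rfl | h2
      · exact hvC hc
      · obtain ⟨_, _, a, ha, ⟨w⟩⟩ := (hmR c).mp h2
        exact hex w.length a c w ha hc rfl
    · obtain ⟨a, ha⟩ := hAne
      have h2 : a ∈ S.filter (fun x => x ∉ R) := by rw [h1]; exact hAS ha
      rw [Finset.mem_filter] at h2
      exact h2.2 ((hmR a).mpr ⟨hAS ha, fun h => hvA (h ▸ ha), a, ha, SimpleGraph.Reachable.refl a⟩)

end Pool.Agent.H48.CE
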