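import Pool.Agent.H48.CE.Basic

/-!
# MP_d32443_co: row WMD (the number of edges of the windmill)
-/

set_option autoImplicit false

namespace Pool.Agent.H48.CE

theorem wm_zero_deg (k m : ℕ) : m ≤ (nb (WM k (m + 1)) Finset.univ 0).card := by
  classical
  have h1 : (Finset.univ.erase (0 : Fin (m + 1))).card = m := by
    rw [Finset.card_erase_of_mem (Finset.mem_univ _), Finset.card_univ, Fintype.card_fin]
    omega
  suffices h2 : (Finset.univ.erase (0 : Fin (m + 1))) ⊆ nb (WM k (m + 1)) Finset.univ 0 by
    have h3 := Finset.card_le_card h2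
    omega
  intro z hz
  rw [Finset.mem_erase] at hz
  rw [mem_nb]
  exact ⟨Finset.mem_univ _, fun h => hz.1 h.symm, Or.inl rfl⟩

/-- The degree in a block of size `s`. -/
theorem wm_block_deg (k m b s : ℕ) (hs : s ≤ 2 * k) (hb : 2 * k * b + s ≤ m)
    (x : Fin (m + 1)) (t : ℕ) (ht : t < s) (hx : x.val = 2 * k * b + 1 + t) :
    s ≤ (nb (WM k (m + 1)) Finset.univ x).card := by
  classical
  have h1 : (Finset.univ : Finset (Fin s)).card = s := by
    rw [Finset.card_univ, Fintype.card_fin]
  have h2 : (Finset.univ : Finset (Fin s)).card ≤ (nb (WM k (m + 1)) Finset.univ x).card := by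
    refine Finset.card_le_card_of_injOn
      (fun i => if i.val = t then (0 : Fin (m + 1)) else
        ⟨2 * k * b + 1 + i.val, by have := i.isLt; omega⟩) ?_ ?_
    · intro i _
      rw [Finset.mem_coe, mem_nb]
      refine ⟨Finset.mem_univ _, ?_⟩
      by_cases hi : i.val = t
      · simp only [hi, if_true]
        refine ⟨fun h => ?_, Or.inr (Or.inl rfl)⟩
        rw [h] at hx
        simp at hx
        omega
      · simp only [hi, if_false]
        refine ⟨fun h => ?_, Or.inr (Or.inr ?_)⟩
        · have h3 := congrArg Fin.val h
          simp only at h3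
          omega
        · have hi2 := i.isLt
          have e1 : x.val - 1 = 2 * k * b + t := by omega
          have e2 : 2 * k * b + 1 + i.val - 1 = 2 * k * b + i.val := by omega
          simp only [e1, e2]
          rw [Nat.mul_add_div (by omega), Nat.mul_add_div (by omega),
            Nat.div_eq_of_lt (by omega), Nat.div_eq_of_lt (by omega)]
    · intro i _ j _ hij
      apply Fin.ext
      by_cases hi : i.val = t
      · by_cases hj : j.val = t
        · rw [hi, hj]
        · simp only [hi, hj, if_true, if_false] at hij
          have h3 := congrArg Fin.val hij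
          simp at h3
          omega
      · by_cases hj : j.val = t
        · simp only [hi, hj, if_true, if_false] at hij
          have h3 := congrArg Fin.val hij
          simp at h3
        · simp only [hi, hj, if_false] at hij
          have h3 := congrArg Fin.val hij
          simp only at h3
          omega
  omega

theorem pf_WMD : T_WMD := by
  intro k q r hk hr
  have h1 : ∀ y : Fin (2 * k * q + r), (if y.val < 2 * k * q then 2 * k else r) ≤
      (nb (WM k (2 * k * q + r + 1)) Finset.univ y.succ).card := by
    intro y
    have hy := y.isLt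
    split_ifs with h
    · have hdm := Nat.div_add_mod y.val (2 * k)
      have hmod : y.val % (2 * k) < 2 * k := Nat.mod_lt _ (by omega)
      have hdiv : y.val / (2 * k) < q := by
        rw [Nat.div_lt_iff_lt_mul (by omega)]
        have h' : y.val < q * (2 * k) := by rw [mul_comm q (2 * k)]; exact h
        exact h'
      have hb : 2 * k * (y.val / (2 * k)) + 2 * k ≤ 2 * k * q := by
        have h3 : 2 * k * (y.val / (2 * k) + 1) ≤ 2 * k * q := Nat.mul_le_mul_left _ hdiv
        have h4 : 2 * k * (y.val / (2 * k) + 1) = 2 * k * (y.val / (2 * k)) + 2 * k := by ring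
        omega
      refine wm_block_deg k _ (y.val / (2 * k)) (2 * k) le_rfl (by omega) y.succ
        (y.val % (2 * k)) hmod ?_
      rw [Fin.val_succ]
      omega
    · refine wm_block_deg k _ q r (by omega) le_rfl y.succ (y.val - 2 * k * q) (by omega) ?_
      rw [Fin.val_succ]
      omega
  have h2 : D (WM k (2 * k * q + r + 1)) Finset.univ =
      (nb (WM k (2 * k * q + r + 1)) Finset.univ 0).card +
        ∑ y : Fin (2 * k * q + r), (nb (WM k (2 * k * q + r + 1)) Finset.univ y.succ).card := by
    unfold D
    rw [Fin.sum_univ_succ]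
  have h3 : ∑ y : Fin (2 * k * q + r), (if y.val < 2 * k * q then 2 * k else r) =
      2 * k * q * (2 * k) + r * r := by
    rw [Fin.sum_univ_eq_sum_range (fun i => if i < 2 * k * q then 2 * k else r),
      Finset.sum_range_add]
    have e1 : ∑ x ∈ Finset.range (2 * k * q), (if x < 2 * k * q then 2 * k else r) =
        2 * k * q * (2 * k) := by
      rw [Finset.sum_congr rfl (fun x hx => if_pos (Finset.mem_range.mp hx))]
      simp
    have e2 : ∑ x ∈ Finset.range r, (if 2 * k * q + x < 2 * k * q then 2 * k else r) = r * r := by
      rw [Finset.sum_congr rfl (fun x hx => if_neg (show ¬ (2 * k * q + x < 2 * k * q) by omega))]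
      simp
    rw [e1, e2]
  have h4 : ∑ y : Fin (2 * k * q + r), (if y.val < 2 * k * q then 2 * k else r) ≤
      ∑ y : Fin (2 * k * q + r), (nb (WM k (2 * k * q + r + 1)) Finset.univ y.succ).card :=
    Finset.sum_le_sum (fun y _ => h1 y)
  have h5 := wm_zero_deg k (2 * k * q + r)
  rw [h2]
  rw [h3] at h4
  obtain ⟨s, hs⟩ : ∃ s, 2 * k = r + s := ⟨2 * k - r, by omega⟩
  have h6 : 2 * k - r = s := by omega
  rw [h6]
  have h7 : (2 * k + 1) * (2 * k * q + r) = 2 * k * q * (2 * k) + r * (2 * k) + (2 * k * q + r) := by
    ring
  have h8 : r * (2 * k) = r * r + r * s := by rw [hs]; ring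
  omega

end Pool.Agent.H48.CE
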