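import Pool.Agent.H48.CE.Basic

/-!
# MP_d32443_co: row WMR (the windmill has no run)
-/

set_option autoImplicit false

namespace Pool.Agent.H48.CE

theorem wm_const {k n : ℕ} : ∀ {x y : Fin n} (w : (WM k n).Walk x y),
    (∀ z ∈ w.support, z.val ≠ 0) → ∀ z ∈ w.support, (z.val - 1) / (2 * k) = (x.val - 1) / (2 * k) := by
  intro x y w
  induction w with
  | nil =>
    intro _ z hz
    simp at hz
    rw [hz]
  | @cons x x' y h p ih =>
    intro h0 z hz
    rw [SimpleGraph.Walk.support_cons] at h0 hz
    have hx : x.val ≠ 0 := h0 x List.mem_cons_self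
    have hx' : x'.val ≠ 0 := h0 x' (List.mem_cons_of_mem _ p.start_mem_support)
    have hb : (x.val - 1) / (2 * k) = (x'.val - 1) / (2 * k) := by
      rcases h.2 with h1 | h1 | h1
      · exact absurd h1 hx
      · exact absurd h1 hx'
      · exact h1
    rw [List.mem_cons] at hz
    rcases hz with rfl | hz
    · rfl
    · rw [hb]
      exact ih (fun z hz => h0 z (List.mem_cons_of_mem _ hz)) z hz

theorem wm_path {k n : ℕ} : ∀ {x y : Fin n} (w : (WM k n).Walk x y), y.val = 0 → w.IsPath →
    ∀ z ∈ w.support, z.val = 0 ∨ (z.val - 1) / (2 * k) = (x.val - 1) / (2 * k) := by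
  intro x y w
  induction w with
  | nil =>
    intro h0 _ z hz
    simp at hz
    rw [hz]
    exact Or.inl h0
  | @cons x x' y h p ih =>
    intro h0 hp z hz
    rw [SimpleGraph.Walk.cons_isPath_iff] at hp
    rw [SimpleGraph.Walk.support_cons, List.mem_cons] at hz
    rcases hz with rfl | hz
    · exact Or.inr rfl
    · have hx : x.val ≠ 0 := by
        intro hx
        have h1 : x = y := Fin.ext (by rw [hx, h0])
        exact hp.2 (h1 ▸ p.end_mem_support)
      by_cases hx' : x'.val = 0
      · have h1 : x' = y := Fin.ext (by rw [hx', h0])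
        subst h1
        have h2 := SimpleGraph.Walk.eq_nil_iff_nil.mpr (SimpleGraph.Walk.isPath_iff_nil.mp hp.1)
        rw [h2] at hz
        simp at hz
        rw [hz]
        exact Or.inl h0
      · have hb : (x.val - 1) / (2 * k) = (x'.val - 1) / (2 * k) := by
          rcases h.2 with h1 | h1 | h1
          · exact absurd h1 hx
          · exact absurd h1 hx'
          · exact h1
        rw [hb]
        exact ih h0 hp.1 z hz

theorem wm_cycle_block {k n : ℕ} {v : Fin n} (c : (WM k n).Walk v v) (hc : c.IsCycle) :
    ∃ b, ∀ z ∈ c.support, z.val = 0 ∨ (z.val - 1) / (2 * k) = b := by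
  classical
  by_cases h : ∃ z ∈ c.support, z.val = 0
  · obtain ⟨z0, hz0, hz00⟩ := h
    have hc1 : (c.rotate z0 hz0).IsCycle := hc.rotate hz0
    have hsup : ∀ x, x ∈ c.support → x ∈ (c.rotate z0 hz0).support := fun x hx =>
      (SimpleGraph.Walk.mem_support_rotate_iff c z0 hz0).mpr hx
    generalize c.rotate z0 hz0 = c1 at hc1 hsup
    cases c1 with
    | nil => exact absurd hc1 (by simp)
    | @cons _ w _ h p =>
      rw [SimpleGraph.Walk.cons_isCycle_iff] at hc1
      refine ⟨(w.val - 1) / (2 * k), fun z hz => ?_⟩
      have h1 := hsup z hz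
      rw [SimpleGraph.Walk.support_cons, List.mem_cons] at h1
      rcases h1 with rfl | h1
      · exact Or.inl hz00
      · exact wm_path p hz00 hc1.1 z h1
  · push Not at h
    exact ⟨_, fun z hz => Or.inr (wm_const c h z hz)⟩

theorem wm_cycle_length {k n : ℕ} (hk : 1 ≤ k) {v : Fin n} (c : (WM k n).Walk v v)
    (hc : c.IsCycle) : c.length ≤ 2 * k + 1 := by
  classical
  obtain ⟨b, hb⟩ := wm_cycle_block c hc
  have h1 : c.support.tail.toFinset.card = c.length := by
    rw [List.toFinset_card_of_nodup hc.support_nodup, List.length_tail,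
      SimpleGraph.Walk.length_support]
    omega
  rw [← h1]
  have h2 : c.support.tail.toFinset.card ≤ (Finset.range (2 * k + 1)).card := by
    refine Finset.card_le_card_of_injOn
      (fun x => if x.val = 0 then 0 else (x.val - 1) % (2 * k) + 1) ?_ ?_
    · intro x _
      simp only [Finset.coe_range, Set.mem_Iio]
      split_ifs
      · omega
      · have h3 : (x.val - 1) % (2 * k) < 2 * k := Nat.mod_lt _ (by omega)
        omega
    · intro x hx y hy hxy
      rw [Finset.mem_coe, List.mem_toFinset] at hx hy
      have hxb := hb x (List.mem_of_mem_tail hx)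
      have hyb := hb y (List.mem_of_mem_tail hy)
      apply Fin.ext
      by_cases hx0 : x.val = 0
      · by_cases hy0 : y.val = 0
        · rw [hx0, hy0]
        · simp [hx0, hy0] at hxy
      · by_cases hy0 : y.val = 0
        · simp [hx0, hy0] at hxy
        · simp only [hx0, hy0, if_false] at hxy
          have h4 := hxb.resolve_left hx0
          have h5 := hyb.resolve_left hy0
          have h6 := Nat.div_add_mod (x.val - 1) (2 * k)
          have h7 := Nat.div_add_mod (y.val - 1) (2 * k)
          rw [h4] at h6
          rw [h5] at h7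
          omega
  simpa using h2

theorem pf_WMR : T_WMR := by
  intro k n hk h
  obtain ⟨l, hl⟩ := h
  obtain ⟨v, c, hc, hclen⟩ := hl 0 (by omega)
  obtain ⟨v', c', hc', hclen'⟩ := hl (k - 1) (by omega)
  have h1 := hc.three_le_length
  have h2 := wm_cycle_length hk c' hc'
  omega

end Pool.Agent.H48.CE
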