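import Pool.Agent.H48.CE.LNG
import Pool.Agent.H48.CE.LPA
import Pool.Agent.H48.CE.CYC
import Pool.Agent.H48.CE.SPA
import Pool.Agent.H48.CE.DEG
import Pool.Agent.H48.CE.SEP
import Pool.Agent.H48.CE.WMR
import Pool.Agent.H48.CE.WMD
import Pool.Agent.H5.BDE.AVG
import Pool.Agent.H5.BDE.TWO
import Pool.Agent.H5.BDE.DSP
import Pool.Agent.H5.BDE.BND

/-!
# MP_d32443_co: assembly
-/

set_option autoImplicit false

namespace Pool.Agent.H48.CE

/-- In some set `S` without separation (for instance the vertex set of a block) some vertex `v` has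
more than `t * k` neighbours, and `t + 1` of them are pairwise non-adjacent. -/
def Star {V : Type} (k t : ℕ) (G : SimpleGraph V) : Prop :=
  ∃ (S : Finset V) (v : V) (I : Finset V), TC G S ∧ v ∈ S ∧ t * k < (nb G S v).card ∧
    I ⊆ nb G S v ∧ I.card = t + 1 ∧ ∀ x ∈ I, ∀ y ∈ I, ¬ G.Adj x y

theorem ok_AVG : T_AVG := Pool.Agent.H5.BDE.pf_AVG

theorem ok_LNG : T_LNG := pf_LNG ok_AVG

theorem ok_TWO : T_TWO := Pool.Agent.H5.BDE.pf_TWO pf_CYC pf_SPA

theorem ok_DEG : T_DEG := pf_DEG ok_AVG ok_LNG (pf_LPA ok_AVG ok_LNG) (pf_FAN pf_CYC) ok_TWO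

theorem ok_BND : T_BND := Pool.Agent.H5.BDE.pf_BND pf_SEP Pool.Agent.H5.BDE.pf_DSP

/-- The local theorem. -/
theorem local_star {V : Type} {k : ℕ} {G : SimpleGraph V} (hG : ¬ HasRun k G) {t : ℕ} (ht : 2 ≤ t)
    {S : Finset V} {v : V} (hS : TC G S) (hv : v ∈ S) (hd : t * k < (nb G S v).card) :
    ∃ I : Finset V, I ⊆ nb G S v ∧ I.card = t + 1 ∧ ∀ x ∈ I, ∀ y ∈ I, ¬ G.Adj x y := by
  by_contra h
  have hI : Ind G (nb G S v) t := by
    intro J hJ hJa
    by_contra hc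
    obtain ⟨I, hIJ, hIc⟩ := Finset.exists_subset_card_eq (show t + 1 ≤ J.card by omega)
    exact h ⟨I, hIJ.trans hJ, hIc, fun x hx y hy => hJa x (hIJ hx) y (hIJ hy)⟩
  have h1 := ok_DEG G S v t k hS hv ht hI hG
  omega

theorem deg_of_not_star {V : Type} {k : ℕ} {G : SimpleGraph V} (hG : ¬ HasRun k G) {t : ℕ}
    (ht : 2 ≤ t) (hst : ¬ Star k t G) (S : Finset V) (v : V) (hS : TC G S) (hv : v ∈ S) :
    (nb G S v).card ≤ t * k := by
  by_contra hd
  push Not at hd
  obtain ⟨I, hI1, hI2, hI3⟩ := local_star hG ht hS hv hd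
  exact hst ⟨S, v, I, hS, hv, hd, hI1, hI2, hI3⟩

/-- The number of edges. -/
theorem edges_star {n k : ℕ} {G : SimpleGraph (Fin n)} (hG : ¬ HasRun k G) {t : ℕ} (ht : 2 ≤ t)
    (hst : ¬ Star k t G) : 2 * G.edgeSet.ncard ≤ (t * k + 1) * (n - 1) := by
  cases n with
  | zero =>
    have h1 := pf_DEN G
    have h2 : D G (Finset.univ : Finset (Fin 0)) = 0 := by unfold D; simp
    omega
  | succ n =>
    have h1 := (ok_BND G (t * k) (deg_of_not_star hG ht hst) Finset.univ ⟨0, Finset.mem_univ _⟩).1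
    rw [pf_DEN, Finset.card_univ, Fintype.card_fin] at h1
    have h2 : (t * k + 1) * (n + 1) = (t * k + 1) * n + (t * k + 1) := by ring
    have h3 : n + 1 - 1 = n := by omega
    rw [h3]
    omega

/-- The case of equality. -/
theorem equality_star {n k : ℕ} {G : SimpleGraph (Fin n)} (hG : ¬ HasRun k G)
    (hst : ¬ Star k 2 G) (he : (2 * k + 1) * (n - 1) ≤ 2 * G.edgeSet.ncard) :
    ∀ v : Fin n, ∀ c : G.Walk v v, c.IsCycle →
        c.length ≤ 2 * k + 1 ∧ ∀ x ∈ c.support, ∀ y ∈ c.support, x ≠ y → G.Adj x y := by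
  intro v c hc
  cases n with
  | zero => exact v.elim0
  | succ n =>
    have h0 := ok_BND G (2 * k) (deg_of_not_star hG le_rfl hst) Finset.univ ⟨0, Finset.mem_univ _⟩
    have h1 := h0.1
    refine h0.2.2 ?_ v c hc (fun x _ => Finset.mem_univ x)
    rw [pf_DEN, Finset.card_univ, Fintype.card_fin] at h1 ⊢
    have h2 : (2 * k + 1) * (n + 1) = (2 * k + 1) * n + (2 * k + 1) := by ring
    have h3 : n + 1 - 1 = n := by omega
    rw [h3] at he
    omega

/-- Extremal graphs: number of edges from below. -/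
theorem extremal_edges {n k : ℕ} (hk : 1 ≤ k) {G : SimpleGraph (Fin n)}
    (hext : ∀ H : SimpleGraph (Fin n), ¬ HasRun k H → H.edgeSet.ncard ≤ G.edgeSet.ncard) :
    (2 * k + 1) * (n - 1) ≤ 2 * G.edgeSet.ncard +
      ((n - 1) % (2 * k)) * (2 * k - (n - 1) % (2 * k)) := by
  cases n with
  | zero => simp
  | succ n =>
    have h3 : n + 1 - 1 = n := by omega
    rw [h3]
    have hmod : n % (2 * k) < 2 * k := Nat.mod_lt _ (by omega)
    have hdm := Nat.div_add_mod n (2 * k)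
    have h1 := pf_WMD k (n / (2 * k)) (n % (2 * k)) hk hmod
    rw [hdm, pf_DEN] at h1
    have h2 := hext (WM k (n + 1)) (pf_WMR k (n + 1) hk)
    omega

/-- Extremal graphs: cycle lengths. -/
theorem extremal_cycles {n k : ℕ} (hk : 1 ≤ k) {G : SimpleGraph (Fin n)} (hG : ¬ HasRun k G)
    (hst : ¬ Star k 2 G)
    (hext : ∀ H : SimpleGraph (Fin n), ¬ HasRun k H → H.edgeSet.ncard ≤ G.edgeSet.ncard) :
    ∀ v : Fin n, ∀ c : G.Walk v v, c.IsCycle →
      c.length ≤ 2 * k + 1 + ((n - 1) % (2 * k)) * (2 * k - (n - 1) % (2 * k)) := by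
  intro v c hc
  have he := extremal_edges hk hext
  cases n with
  | zero => exact v.elim0
  | succ n =>
    have h0 := (ok_BND G (2 * k) (deg_of_not_star hG le_rfl hst) Finset.univ
      ⟨0, Finset.mem_univ _⟩).2.1 v c hc (fun x _ => Finset.mem_univ x)
    rw [pf_DEN, Finset.card_univ, Fintype.card_fin] at h0
    have h2 : (2 * k + 1) * (n + 1) = (2 * k + 1) * n + (2 * k + 1) := by ring
    have h3 : n + 1 - 1 = n := by omega
    rw [h3] at he ⊢
    omega

theorem mul_sub_le_sq (k r : ℕ) (hr : r ≤ 2 * k) : 2 * k + 1 + r * (2 * k - r) ≤ (k + 1) ^ 2 := by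
  obtain ⟨s, hs⟩ : ∃ s, 2 * k = r + s := ⟨2 * k - r, by omega⟩
  have h1 : 2 * k - r = s := by omega
  rw [h1]
  have h2 : (k + 1) ^ 2 = k * k + 2 * k + 1 := by ring
  have h3 : r * s ≤ k * k := by
    have h4 : (2 * k) * (2 * k) = (r + s) * (r + s) := by rw [hs]
    zify at h4 ⊢
    nlinarith [sq_nonneg ((r : ℤ) - s)]
  omega

end Pool.Agent.H48.CE
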