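import Pool.Agent.H48.CE.Targets

/-!
# MP_d32443_co: basic lemmas on paths as lists
-/

set_option autoImplicit false

namespace Pool.Agent.H48.CE

theorem pth_length_le {V : Type} {G : SimpleGraph V} {S : Finset V} {l : List V}
    (h : Pth G S l) : l.length ≤ S.card := by
  classical
  have h1 : l.toFinset ⊆ S := fun x hx => h.2.2.2 x (List.mem_toFinset.mp hx)
  have h2 := Finset.card_le_card h1
  rwa [List.toFinset_card_of_nodup h.2.1] at h2

theorem exists_max_len {V : Type} (P : List V → Prop) (B : ℕ) (h0 : ∃ l, P l)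
    (hB : ∀ l, P l → l.length ≤ B) : ∃ l, P l ∧ ∀ m, P m → m.length ≤ l.length := by
  classical
  obtain ⟨l0, h0⟩ := h0
  have h1 : (fun n => ∃ l, P l ∧ l.length = n) (Nat.findGreatest (fun n => ∃ l, P l ∧ l.length = n) B) :=
    Nat.findGreatest_spec (P := fun n => ∃ l, P l ∧ l.length = n) (hB l0 h0) ⟨l0, h0, rfl⟩
  obtain ⟨l, hl, hlen⟩ := h1
  refine ⟨l, hl, fun m hm => ?_⟩
  rw [hlen]
  exact Nat.le_findGreatest (hB m hm) ⟨m, hm, rfl⟩

theorem pth_append {V : Type} {G : SimpleGraph V} {S : Finset V} {l m : List V} {x y : V}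
    (hl : Pth G S (l ++ [x])) (hm : Pth G S (y :: m)) (hxy : G.Adj x y)
    (hd : ∀ z ∈ l ++ [x], z ∉ y :: m) : Pth G S (l ++ [x] ++ (y :: m)) := by
  refine ⟨by simp, ?_, ?_, ?_⟩
  · rw [List.nodup_append]
    refine ⟨hl.2.1, hm.2.1, fun a ha b hb hab => ?_⟩
    exact hd a ha (hab ▸ hb)
  · rw [List.isChain_append]
    refine ⟨hl.2.2.1, hm.2.2.1, ?_⟩
    intro a ha b hb
    simp at ha hb
    subst ha; subst hb; exact hxy
  · intro z hz
    rw [List.mem_append] at hz
    rcases hz with hz | hz
    · exact hl.2.2.2 z hz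
    · exact hm.2.2.2 z hz

theorem pth_left {V : Type} {G : SimpleGraph V} {S : Finset V} {l m : List V}
    (h : Pth G S (l ++ m)) (hl : l ≠ []) : Pth G S l := by
  refine ⟨hl, ?_, ?_, fun z hz => h.2.2.2 z (List.mem_append_left _ hz)⟩
  · exact (List.nodup_append.mp h.2.1).1
  · exact (List.isChain_append.mp h.2.2.1).1

theorem pth_right {V : Type} {G : SimpleGraph V} {S : Finset V} {l m : List V}
    (h : Pth G S (l ++ m)) (hm : m ≠ []) : Pth G S m := by
  refine ⟨hm, ?_, ?_, fun z hz => h.2.2.2 z (List.mem_append_right _ hz)⟩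
  · exact (List.nodup_append.mp h.2.1).2.1
  · exact (List.isChain_append.mp h.2.2.1).2.1

theorem pth_reverse {V : Type} {G : SimpleGraph V} {S : Finset V} {l : List V}
    (h : Pth G S l) : Pth G S l.reverse := by
  refine ⟨by simpa using h.1, ?_, ?_, fun z hz => h.2.2.2 z (by simpa using hz)⟩
  · rw [List.nodup_reverse]; exact h.2.1
  · rw [List.isChain_reverse]
    exact h.2.2.1.imp (fun a b hab => hab.symm)

theorem pth_mono {V : Type} {G : SimpleGraph V} {S T : Finset V} {l : List V}
    (h : Pth G S l) (hST : S ⊆ T) : Pth G T l :=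
  ⟨h.1, h.2.1, h.2.2.1, fun z hz => hST (h.2.2.2 z hz)⟩

theorem ind_mono {V : Type} {G : SimpleGraph V} {S T : Finset V} {a : ℕ}
    (h : Ind G S a) (hST : T ⊆ S) : Ind G T a :=
  fun I hI hadj => h I (hI.trans hST) hadj

theorem ind_le {V : Type} {G : SimpleGraph V} {S : Finset V} {a b : ℕ}
    (h : Ind G S a) (hab : a ≤ b) : Ind G S b :=
  fun I hI hadj => (h I hI hadj).trans hab

/-- Removing a vertex that has no neighbour in `R` lowers the independence number. -/
theorem ind_pred {V : Type} {G : SimpleGraph V} {S R : Finset V} {a : ℕ} {z : V}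
    (h : Ind G S a) (hR : R ⊆ S) (hz : z ∈ S) (hzR : z ∉ R) (hadj : ∀ y ∈ R, ¬ G.Adj z y) :
    Ind G R (a - 1) := by
  classical
  intro I hI hIa
  have h1 := h (insert z I) (by
    intro x hx
    rw [Finset.mem_insert] at hx
    rcases hx with rfl | hx
    · exact hz
    · exact hR (hI hx)) (by
    intro x hx y hy
    rw [Finset.mem_insert] at hx hy
    rcases hx with rfl | hx
    · rcases hy with rfl | hy
      · exact G.loopless.irrefl _
      · exact hadj y (hI hy)
    · rcases hy with rfl | hy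
      · exact fun hxy => hadj x (hI hx) hxy.symm
      · exact hIa x hx y hy)
  rw [Finset.card_insert_of_notMem (fun hzI => hzR (hI hzI))] at h1
  omega

/-- Size of the complement of a path. -/
theorem card_compl_path {V : Type} [DecidableEq V] {G : SimpleGraph V} {S : Finset V} {l : List V}
    (h : Pth G S l) : (S.filter (fun x => x ∉ l)).card + l.length = S.card := by
  have h1 : S.filter (fun x => x ∉ l) = S \ l.toFinset := by
    ext x; simp
  have h2 : l.toFinset ⊆ S := fun x hx => h.2.2.2 x (List.mem_toFinset.mp hx)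
  rw [h1, Finset.card_sdiff_of_subset h2, List.toFinset_card_of_nodup h.2.1]
  have h3 := pth_length_le h
  omega

end Pool.Agent.H48.CE
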