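import Mathlib

/-!
# MP_d32443_co: degrees in blocks of graphs without consecutive even cycle lengths (definitions)

`HasRun k G` : `G` has cycles of `k` consecutive even lengths.
`Ind G S t` : no `t + 1` pairwise non-adjacent vertices in `S`.
`Conn G S` : the subgraph on `S` is connected.
`TC G S` : the subgraph on `S` has no separation by at most one vertex.
`Pth G S l` : the list `l` is a path inside `S`.
`nb G S v` : neighbours of `v` in `S`; `D G S` : twice the number of edges inside `S`.
-/

set_option autoImplicit false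

namespace Pool.Agent.H48.CE

/-- `G` has cycles of the lengths `2l, 2l+2, ..., 2l+2k-2` for some `l`. -/
def HasRun {V : Type} (k : ℕ) (G : SimpleGraph V) : Prop :=
  ∃ l : ℕ, ∀ i < k, ∃ v : V, ∃ c : G.Walk v v, c.IsCycle ∧ c.length = 2 * l + 2 * i

/-- Any set of pairwise non-adjacent vertices of `S` has at most `t` elements. -/
def Ind {V : Type} (G : SimpleGraph V) (S : Finset V) (t : ℕ) : Prop :=
  ∀ I : Finset V, I ⊆ S → (∀ x ∈ I, ∀ y ∈ I, ¬ G.Adj x y) → I.card ≤ t

/-- The subgraph induced by `S` is connected (or empty). -/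
def Conn {V : Type} (G : SimpleGraph V) (S : Finset V) : Prop :=
  ∀ X : Finset V, X ⊆ S → X.Nonempty → X ≠ S → ∃ x ∈ X, ∃ y ∈ S, y ∉ X ∧ G.Adj x y

/-- The subgraph induced by `S` has no separation with at most one common vertex. -/
def TC {V : Type} (G : SimpleGraph V) (S : Finset V) : Prop :=
  ∀ A B : Finset V, A ⊆ S → B ⊆ S → (∀ x ∈ S, x ∈ A ∨ x ∈ B) →
    (∀ x ∈ A, x ∈ B → ∀ y ∈ A, y ∈ B → x = y) →
    (∀ x ∈ A, x ∉ B → ∀ y ∈ B, y ∉ A → ¬ G.Adj x y) → A = S ∨ B = S

/-- `l` is a (nonempty) path inside `S`. -/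
def Pth {V : Type} (G : SimpleGraph V) (S : Finset V) (l : List V) : Prop :=
  l ≠ [] ∧ l.Nodup ∧ l.IsChain G.Adj ∧ ∀ x ∈ l, x ∈ S

open scoped Classical in
/-- The neighbours of `v` in `S`. -/
noncomputable def nb {V : Type} (G : SimpleGraph V) (S : Finset V) (v : V) : Finset V :=
  S.filter (fun w => G.Adj v w)

/-- The sum of the degrees in the subgraph induced by `S` (twice the number of edges). -/
noncomputable def D {V : Type} (G : SimpleGraph V) (S : Finset V) : ℕ :=
  ∑ v ∈ S, (nb G S v).card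

theorem mem_nb {V : Type} {G : SimpleGraph V} {S : Finset V} {v w : V} :
    w ∈ nb G S v ↔ w ∈ S ∧ G.Adj v w := by
  classical
  simp [nb]

end Pool.Agent.H48.CE
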