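import Pool.Agent.H48.CE.Basic

/-!
# MP_d32443_co: row LNG (long paths from each vertex of a connected set)
-/

set_option autoImplicit false

namespace Pool.Agent.H48.CE

theorem pf_LNG (hAVG : T_AVG) : T_LNG := by
  intro V G S
  classical
  induction S using Finset.strongInduction with
  | H S ih =>
  intro a u hc hI hu
  obtain ⟨l, hl, hmax⟩ := exists_max_len (fun l => Pth G S (u :: l)) S.card
    ⟨[], by simp [Pth, hu]⟩
    (fun l h => by have h1 := pth_length_le h; simp at h1; omega)
  refine ⟨l, hl, ?_⟩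
  by_contra hlt
  push Not at hlt
  have ha : 1 ≤ a := by
    have h1 := hI {u} (by simpa using hu) (by simp)
    simpa using h1
  have hcard := card_compl_path hl
  set R := S.filter (fun x => x ∉ u :: l) with hR
  have hRS : R ⊆ S := Finset.filter_subset _ _
  simp only [List.length_cons] at hcard
  obtain ⟨pre, z, hQ⟩ : ∃ pre z, u :: l = pre ++ [z] := by
    rcases List.eq_nil_or_concat (u :: l) with h | ⟨L, b, h⟩
    · simp at h
    · exact ⟨L, b, by rw [h, List.concat_eq_append]⟩
  have hz : ∀ y ∈ R, ¬ G.Adj z y := by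
    intro y hy hzy
    rw [hR, Finset.mem_filter] at hy
    have h1 : Pth G S (u :: (l ++ [y])) := by
      have h2 := pth_append (l := pre) (m := []) (x := z) (y := y) (hQ ▸ hl)
        ⟨by simp, by simp, by simp, by simpa using hy.1⟩ hzy (by
          intro w hw hw2
          simp at hw2
          subst hw2
          exact hy.2 (hQ ▸ hw))
      rw [← hQ] at h2
      simpa using h2
    have h3 := hmax _ h1
    simp at h3
  have hzS : z ∈ S := hl.2.2.2 z (by rw [hQ]; simp)
  have hzR : z ∉ R := by
    rw [hR, Finset.mem_filter]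
    intro h
    exact h.2 (by rw [hQ]; simp)
  have hIR : Ind G R (a - 1) := ind_pred hI hRS hzS hzR hz
  have hbig : (a - 1) * (l.length + 1) + 1 ≤ R.card := by
    have h1 : a * (l.length + 1) = (a - 1) * (l.length + 1) + (l.length + 1) := by
      obtain ⟨b, rfl⟩ : ∃ b, a = b + 1 := ⟨a - 1, by omega⟩
      simp; ring
    omega
  obtain ⟨C, b, hCR, hCne, hCc, hCd, hCI, hCb⟩ := hAVG G R (a - 1) (l.length + 1) hIR hbig
  have huR : u ∉ R := by
    rw [hR, Finset.mem_filter]
    intro h
    exact h.2 (by simp)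
  have hCS : C ⊆ S := hCR.trans hRS
  have hCne' : C ≠ S := fun h => huR (hCR (h ▸ hu))
  obtain ⟨y, hy, w, hw, hwC, hyw⟩ := hc C hCS hCne hCne'
  have hwR : w ∉ R := fun h => hCd y hy w h hwC hyw
  have hwQ : w ∈ u :: l := by
    by_contra h
    exact hwR (by rw [hR, Finset.mem_filter]; exact ⟨hw, h⟩)
  obtain ⟨m, hm, hmc⟩ := ih C (Finset.ssubset_iff_subset_ne.mpr ⟨hCS, hCne'⟩) b y hCc hCI hy
  have hlong : l.length + 1 < m.length + 1 := by
    by_contra h
    push Not at h
    have h1 : b * (m.length + 1) ≤ b * (l.length + 1) := Nat.mul_le_mul_left _ h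
    omega
  obtain ⟨p1, p2, hp⟩ := List.append_of_mem hwQ
  have hpl : Pth G S (p1 ++ [w]) := by
    have h1 : Pth G S ((p1 ++ [w]) ++ p2) := by
      rw [List.append_assoc]; simpa [← hp] using hl
    exact pth_left h1 (by simp)
  have hfin : Pth G S (p1 ++ [w] ++ (y :: m)) := by
    refine pth_append hpl (pth_mono hm hCS) hyw.symm ?_
    intro v hv hv2
    have h1 : v ∈ R := hCR (hm.2.2.2 v hv2)
    rw [hR, Finset.mem_filter] at h1
    apply h1.2
    rw [hp]
    simp at hv ⊢
    tauto
  -- the list starts with `u`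
  have hstart : ∃ l', p1 ++ [w] ++ (y :: m) = u :: l' ∧ m.length + 1 ≤ l'.length := by
    cases p1 with
    | nil =>
      simp at hp
      exact ⟨y :: m, by simp [hp.1], by simp⟩
    | cons c p1 =>
      simp at hp
      refine ⟨p1 ++ [w] ++ (y :: m), by simp [hp.1], by simp; omega⟩
  obtain ⟨l', hl', hl'2⟩ := hstart
  rw [hl'] at hfin
  have h5 := hmax l' hfin
  omega

end Pool.Agent.H48.CE
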