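import Pool.Agent.H48.CE.Defs

/-!
# MP_d32443_co: board ce_modules (targets)
-/

set_option autoImplicit false

namespace Pool.Agent.H48.CE

/-- CYC. A closed chain without repetition gives a cycle. -/
def T_CYC : Prop := ∀ {V : Type} (G : SimpleGraph V) (x : V) (l : List V) (y : V),
  l ≠ [] → (x :: (l ++ [y])).Nodup → (x :: (l ++ [y])).IsChain G.Adj → G.Adj y x →
  ∃ v : V, ∃ c : G.Walk v v, c.IsCycle ∧ c.length = l.length + 2

/-- AVG. Some component has at least the average ratio of size and independence number. -/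
def T_AVG : Prop := ∀ {V : Type} (G : SimpleGraph V) (H : Finset V) (t c : ℕ),
  Ind G H t → t * c + 1 ≤ H.card →
  ∃ C : Finset V, ∃ a : ℕ, C ⊆ H ∧ C.Nonempty ∧ Conn G C ∧
    (∀ x ∈ C, ∀ y ∈ H, y ∉ C → ¬ G.Adj x y) ∧ Ind G C a ∧ a * c + 1 ≤ C.card

/-- LNG. A connected set has a path from each of its vertices with at least |S| / a vertices. -/
def T_LNG : Prop := ∀ {V : Type} (G : SimpleGraph V) (S : Finset V) (a : ℕ) (u : V),
  Conn G S → Ind G S a → u ∈ S →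
  ∃ l : List V, Pth G S (u :: l) ∧ S.card ≤ a * (l.length + 1)

/-- LPA. A connected set has a path with at least 2 |S| / a vertices, a >= 2. -/
def T_LPA : Prop := ∀ {V : Type} (G : SimpleGraph V) (S : Finset V) (a : ℕ),
  Conn G S → Ind G S a → 2 ≤ a → S.Nonempty →
  ∃ l : List V, Pth G S l ∧ 2 * S.card ≤ a * l.length

/-- FAN. A path with 2k+1 vertices inside the neighbourhood of a vertex gives a run. -/
def T_FAN : Prop := ∀ {V : Type} (G : SimpleGraph V) (S : Finset V) (v : V) (l : List V) (k : ℕ),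
  Pth G S l → (∀ x ∈ l, G.Adj v x) → 2 * k + 1 ≤ l.length → HasRun k G

/-- SPA. In a set without separation two disjoint sets which do not contain `v` are joined by a
path that avoids `v` and has only its ends in the two sets. -/
def T_SPA : Prop := ∀ {V : Type} (G : SimpleGraph V) (S A C : Finset V) (v : V),
  TC G S → v ∈ S → A ⊆ S → C ⊆ S → A.Nonempty → C.Nonempty → v ∉ A → v ∉ C →
  (∀ x ∈ A, x ∉ C) →
  ∃ (a c : V) (q : List V), a ∈ A ∧ c ∈ C ∧ (∀ x ∈ q, x ∈ S ∧ x ≠ v ∧ x ∉ A ∧ x ∉ C) ∧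
    (a :: (q ++ [c])).Nodup ∧ (a :: (q ++ [c])).IsChain G.Adj

/-- TWO. Two disjoint subsets of the neighbourhood of `v` with long paths from all their vertices
give a run. -/
def T_TWO : Prop := ∀ {V : Type} (G : SimpleGraph V) (S A C : Finset V) (v : V) (k p q : ℕ),
  TC G S → v ∈ S → A ⊆ S → C ⊆ S → A.Nonempty → C.Nonempty →
  (∀ x ∈ A, G.Adj v x) → (∀ x ∈ C, G.Adj v x) → (∀ x ∈ A, x ∉ C) →
  (∀ u ∈ A, ∃ l : List V, Pth G A (u :: l) ∧ p ≤ l.length + 1) →
  (∀ u ∈ C, ∃ l : List V, Pth G C (u :: l) ∧ q ≤ l.length + 1) →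
  1 ≤ p → 1 ≤ q → 2 * k + 1 ≤ p + q → HasRun k G

/-- DEG. The local theorem. -/
def T_DEG : Prop := ∀ {V : Type} (G : SimpleGraph V) (S : Finset V) (v : V) (t k : ℕ),
  TC G S → v ∈ S → 2 ≤ t → Ind G (nb G S v) t → ¬ HasRun k G → (nb G S v).card ≤ t * k

/-- SEP. A cycle does not cross a separation with at most one common vertex. -/
def T_SEP : Prop := ∀ {V : Type} (G : SimpleGraph V) (A B : Finset V),
  (∀ x ∈ A, x ∈ B → ∀ y ∈ A, y ∈ B → x = y) →
  (∀ x ∈ A, x ∉ B → ∀ y ∈ B, y ∉ A → ¬ G.Adj x y) →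
  ∀ (v : V) (c : G.Walk v v), c.IsCycle → (∀ x ∈ c.support, x ∈ A ∨ x ∈ B) →
    (∀ x ∈ c.support, x ∈ A) ∨ (∀ x ∈ c.support, x ∈ B)

/-- DSP. The degree sum over a separation. -/
def T_DSP : Prop := ∀ {V : Type} (G : SimpleGraph V) (S A B : Finset V),
  A ⊆ S → B ⊆ S → (∀ x ∈ S, x ∈ A ∨ x ∈ B) →
  (∀ x ∈ A, x ∈ B → ∀ y ∈ A, y ∈ B → x = y) →
  (∀ x ∈ A, x ∉ B → ∀ y ∈ B, y ∉ A → ¬ G.Adj x y) →
  A ≠ S → B ≠ S →
  D G S ≤ D G A + D G B ∧ A.card + B.card ≤ S.card + 1 ∧ A.card < S.card ∧ B.card < S.card ∧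
    A.Nonempty ∧ B.Nonempty

/-- BND. The degree bound in the blocks gives the bound for the number of edges, a bound for the
lengths of the cycles, and the structure in the case of equality. -/
def T_BND : Prop := ∀ {V : Type} (G : SimpleGraph V) (d : ℕ),
  (∀ (S : Finset V) (v : V), TC G S → v ∈ S → (nb G S v).card ≤ d) →
  ∀ S : Finset V, S.Nonempty →
    D G S + (d + 1) ≤ (d + 1) * S.card ∧
    (∀ (v : V) (c : G.Walk v v), c.IsCycle → (∀ x ∈ c.support, x ∈ S) →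
      c.length ≤ d + 1 ∨ D G S + c.length ≤ (d + 1) * S.card) ∧
    (D G S + (d + 1) = (d + 1) * S.card →
      ∀ (v : V) (c : G.Walk v v), c.IsCycle → (∀ x ∈ c.support, x ∈ S) →
        c.length ≤ d + 1 ∧ ∀ x ∈ c.support, ∀ y ∈ c.support, x ≠ y → G.Adj x y)

/-- WMR. The windmill: blocks `{0} ∪ {2kb+1, ..., 2kb+2k}` complete; no run. -/
def WM (k n : ℕ) : SimpleGraph (Fin n) where
  Adj i j := i ≠ j ∧ (i.val = 0 ∨ j.val = 0 ∨ (i.val - 1) / (2 * k) = (j.val - 1) / (2 * k))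
  symm := ⟨by
    rintro i j ⟨h, h'⟩
    refine ⟨fun e => h e.symm, ?_⟩
    rcases h' with h' | h' | h'
    · exact Or.inr (Or.inl h')
    · exact Or.inl h'
    · exact Or.inr (Or.inr h'.symm)⟩
  loopless := ⟨fun _ h => h.1 rfl⟩

/-- WMR. The windmill has no run. -/
def T_WMR : Prop := ∀ k n : ℕ, 1 ≤ k → ¬ HasRun k (WM k n)

/-- WMD. The number of edges of the windmill. -/
def T_WMD : Prop := ∀ k q r : ℕ, 1 ≤ k → r < 2 * k →
  (2 * k + 1) * (2 * k * q + r) ≤ D (WM k (2 * k * q + r + 1)) Finset.univ + r * (2 * k - r)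

/-- DEN. `D` is twice the number of edges. -/
def T_DEN : Prop := ∀ {n : ℕ} (G : SimpleGraph (Fin n)), D G Finset.univ = 2 * G.edgeSet.ncard

end Pool.Agent.H48.CE
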